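import Mathlib
import Pool.Agent.Work.MP_804706_an.Bridge

set_option autoImplicit false

open Set MeasureTheory

namespace Pool.Agent.Results.MP_804706_an.ThreeSolutions

open Pool.Agent.Work.MP_804706_an.Fun

/-- Ricceri's question on the critical Kirchhoff problem: property (M) holds for every `N > 4`,
every nonempty bounded open set `Ω` (in particular every bounded domain) and all `a ≥ 0`, `b > 0`.
The convex set `C ⊆ L²(Ω)` is given as a convex set of square integrable functions. -/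
theorem result (N : ℕ) (hN : 4 < N) (Ω : Set (EuclideanSpace ℝ (Fin N))) (hΩo : IsOpen Ω)
    (hΩb : Bornology.IsBounded Ω) (hΩn : Ω.Nonempty) (a b : ℝ) (ha : 0 ≤ a) (hb : 0 < b) :
    ∃ lam₀ : ℝ, 0 < lam₀ ∧ ∀ lam : ℝ, lam₀ < lam →
      ∀ C : Set (EuclideanSpace ℝ (Fin N) → ℝ), Convex ℝ C → (∀ c ∈ C, MemLp c 2 (mu Ω)) →
        (∀ u g, IsH01 Ω u g → ∀ ε : ENNReal, 0 < ε →
          ∃ c ∈ C, eLpNorm (fun x => u x - c x) 2 (mu Ω) < ε) →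
        ∃ v ∈ C, ∃ u₁ u₂ u₃ g₁ g₂ g₃,
          IsWeakSol Ω a b lam v u₁ g₁ ∧ IsWeakSol Ω a b lam v u₂ g₂ ∧
          IsWeakSol Ω a b lam v u₃ g₃ ∧
          IsGlobalMin Ω a b lam v u₁ g₁ ∧ IsGlobalMin Ω a b lam v u₂ g₂ ∧
          ¬ u₁ =ᵐ[mu Ω] u₂ ∧ ¬ u₁ =ᵐ[mu Ω] u₃ ∧ ¬ u₂ =ᵐ[mu Ω] u₃ :=
  Pool.Agent.Work.MP_804706_an.final hN hΩo hΩb hΩn a b ha hb

end Pool.Agent.Results.MP_804706_an.ThreeSolutions
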